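import Pool.Agent.THS.StmtsG

/-!
THS, row PXV (helper21): Riemann's relation over K.
-/

namespace Pool.Agent.THS.H21

open scoped BigOperators

theorem map_RQ {g : ℕ} {K : Type} [Field K] (φ : K →+* ℂ) (θ : ℤ → (Fin g → ZMod 2) → ℂ)
    (ℓ m : ℂ) (T : ℤ → (Fin g → ZMod 2) → K) (hm : m ≠ 0)
    (hT : ∀ k c, φ (T k c) = ℓ * m ^ (k ^ 2) * θ k c) (a b : Fin g → ZMod 2) (i j : ℤ) :
    φ (RQ T a b i j) = ℓ ^ 2 * (m ^ (2 * i ^ 2) * m ^ (2 * j ^ 2)) * RQ θ a b i j := by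
  have h1 : m ^ (2 * i ^ 2) * m ^ (2 * j ^ 2) = m ^ ((i + j) ^ 2) * m ^ ((i - j) ^ 2) := by
    rw [← zpow_add₀ hm, ← zpow_add₀ hm]
    congr 1
    ring
  unfold RQ
  rw [map_sum, Finset.mul_sum]
  refine Finset.sum_congr rfl fun c _ => ?_
  rw [map_mul, map_mul, map_intCast, hT, hT, h1]
  ring

theorem pxv (rqi : RqiStatement) : PxvStatement := by
  intro g K _ φ θ V x μ ℓ m T hθ hV hx hμ hℓ hm hT
  have hinj : Function.Injective φ := φ.injective
  have hchar : CharZero K := (RingHom.charZero_iff hinj).2 inferInstance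
  have hR : ∀ a b i j, φ (RQ T a b i j) =
      ℓ ^ 2 * (m ^ (2 * i ^ 2) * m ^ (2 * j ^ 2)) * (V i (a, b) * V j (a, b)) := by
    intro a b i j
    rw [map_RQ φ θ ℓ m T hm hT, hV]
  have hW : ∀ i j : ℤ, ℓ ^ 2 * (m ^ (2 * i ^ 2) * m ^ (2 * j ^ 2)) ≠ 0 := fun i j =>
    mul_ne_zero (pow_ne_zero 2 hℓ) (mul_ne_zero (zpow_ne_zero _ hm) (zpow_ne_zero _ hm))
  have hTne : ∀ k, ∃ c, T k c ≠ 0 := by
    intro k
    obtain ⟨c, hc⟩ := hθ k
    refine ⟨c, fun h => ?_⟩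
    have h1 := hT k c
    rw [h, map_zero] at h1
    exact mul_ne_zero (mul_ne_zero hℓ (zpow_ne_zero _ hm)) hc h1.symm
  refine ⟨fun i j => ?_, fun a b i j k l => ?_⟩
  · obtain ⟨e, he⟩ := hTne (i + j)
    obtain ⟨d, hd⟩ := hTne (i - j)
    have h1 := rqi g K T (e - d) d i j
    rw [sub_add_cancel] at h1
    have h2 : (2 : K) ^ g * (T (i + j) e * T (i - j) d) ≠ 0 :=
      mul_ne_zero (pow_ne_zero _ two_ne_zero) (mul_ne_zero he hd)
    rw [← h1] at h2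
    obtain ⟨b, -, hb⟩ := Finset.exists_ne_zero_of_sum_ne_zero h2
    have hRQ : RQ T (e - d) b i j ≠ 0 := fun h => hb (by rw [h, mul_zero])
    have hφ : φ (RQ T (e - d) b i j) ≠ 0 := (map_ne_zero φ).2 hRQ
    rw [hR] at hφ
    have hVV : V i (e - d, b) * V j (e - d, b) ≠ 0 := right_ne_zero_of_mul hφ
    have hxx : ∀ a b, φ (x i (a, b) * x j (a, b)) = μ i * μ j * (V i (a, b) * V j (a, b)) := by
      intro a b
      rw [map_mul, hx, hx]
      ring
    have hy : x i (e - d, b) * x j (e - d, b) ≠ 0 := by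
      intro h
      have h3 := hxx (e - d) b
      rw [h, map_zero] at h3
      exact mul_ne_zero (mul_ne_zero (hμ i) (hμ j)) hVV h3.symm
    refine ⟨RQ T (e - d) b i j / (x i (e - d, b) * x j (e - d, b)), div_ne_zero hRQ hy,
      fun a' b' => hinj ?_⟩
    rw [hR, map_mul, map_div₀, hR, hxx, hxx]
    have h4 := hμ i
    have h5 := hμ j
    have h6 : V i (e - d, b) ≠ 0 := left_ne_zero_of_mul hVV
    have h7 : V j (e - d, b) ≠ 0 := right_ne_zero_of_mul hVV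
    field_simp
  · apply hinj
    rw [map_mul, map_mul, hR, hR, hR, hR]
    ring

end Pool.Agent.THS.H21
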