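import Pool.Agent.THS.StmtsT

/-!
THS, row TLD (helper21): the theta series is entire on complex lines.
-/

namespace Pool.Agent.THS.H21

open scoped BigOperators

theorem term_diff {g : ℕ} (τ : Matrix (Fin g) (Fin g) ℂ) (s : Fin g → ℝ) (u v : Fin g → ℂ)
    (n : Fin g → ℤ) : Differentiable ℂ (fun t : ℂ => tht τ s (fun i => u i + t * v i) n) := by
  unfold tht
  fun_prop

theorem tld (tbd : TbdStatement) : TldStatement := by
  intro g τ hτ s u v t
  set r : ℝ := ‖t‖ + 1 with hr
  set R : ℝ := ∑ i, (‖u i‖ + r * ‖v i‖ + |s i|) with hR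
  have hr0 : 0 ≤ r := by positivity
  have hle : ∀ i, ‖u i‖ + r * ‖v i‖ + |s i| ≤ R := by
    intro i
    exact Finset.single_le_sum (f := fun i => ‖u i‖ + r * ‖v i‖ + |s i|)
      (fun j _ => by positivity) (Finset.mem_univ i)
  obtain ⟨w, hw, hb⟩ := tbd g τ hτ R
  have h1 : DifferentiableOn ℂ (fun t : ℂ => ths τ s (fun i => u i + t * v i))
      (Metric.ball (0 : ℂ) r) := by
    unfold ths
    refine Complex.differentiableOn_tsum_of_summable_norm hw
      (fun n => (term_diff τ s u v n).differentiableOn) Metric.isOpen_ball fun n x hx => ?_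
    refine hb s _ (fun i => ?_) (fun i => ?_) n
    · have := hle i
      have h2 : 0 ≤ ‖u i‖ + r * ‖v i‖ := by positivity
      linarith
    · have h2 : ‖x‖ ≤ r := by
        have := Metric.mem_ball.1 hx
        rw [dist_zero_right] at this
        exact this.le
      have h3 := hle i
      have h4 : ‖u i + x * v i‖ ≤ ‖u i‖ + ‖x‖ * ‖v i‖ := by
        refine (norm_add_le _ _).trans ?_
        rw [norm_mul]
      have h5 : ‖x‖ * ‖v i‖ ≤ r * ‖v i‖ := mul_le_mul_of_nonneg_right h2 (norm_nonneg _)
      have h6 : 0 ≤ |s i| := abs_nonneg _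
      linarith
  refine h1.differentiableAt (Metric.isOpen_ball.mem_nhds ?_)
  rw [Metric.mem_ball, dist_zero_right, hr]
  linarith

end Pool.Agent.THS.H21
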